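import Pool.Agent.Work.MP_b0497c_an.Bd.B16

set_option autoImplicit false

/-!
# The final statement from `main_of_claims`
-/

open scoped ContDiff
open Set Filter Topology

namespace Pool.Agent.Work.MP_b0497c_an.Forced

/-- The conclusion of the main theorem. -/
def MainConclusion (m : ℕ) (ε : ℝ) : Prop :=
  ∃ (T : ℝ) (f u : ℝ → E3 → E3) (p : ℝ → E3 → ℝ), 0 < T ∧ TorusSol T f u p ∧
      (∀ n ≤ m, ∀ z : ℝ × E3, ‖iteratedFDeriv ℝ n (fun z : ℝ × E3 => f z.1 z.2) z‖ ≤ ε) ∧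
      IsForcedSolution T f u p ∧
      ∀ (T' : ℝ) (v : ℝ → E3 → E3) (q : ℝ → E3 → ℝ), IsForcedSolution T' f v q →
        (∀ x, v 0 x = 0) → T' ≤ T ∧ ∀ t ∈ Ico 0 T', ∀ x, v t x = u t x

end Pool.Agent.Work.MP_b0497c_an.Forced
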