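import Pool.Agent.Work.MP_b0497c_an.Forced.Asm.Defs
import Pool.Agent.Work.MP_b0497c_an.Algebra

set_option autoImplicit false

/-! Assembly, item C10: from the whole space to the torus. -/

open scoped ContDiff Matrix
open Set Filter Topology

namespace Pool.Agent.Work.MP_b0497c_an.Forced

namespace C10

/-! ### The reduction map -/

theorem abs_red_le (y : ℝ) : |y - 2 * Real.pi * round (y / (2 * Real.pi))| ≤ Real.pi := by
  have h1 : |y / (2 * Real.pi) - round (y / (2 * Real.pi))| ≤ 1 / 2 := abs_sub_round _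
  have h3 : y - 2 * Real.pi * round (y / (2 * Real.pi))
      = (2 * Real.pi) * (y / (2 * Real.pi) - round (y / (2 * Real.pi))) := by
    field_simp
  rw [h3, abs_mul, abs_of_pos (by positivity : 0 < 2 * Real.pi)]
  calc 2 * Real.pi * |y / (2 * Real.pi) - round (y / (2 * Real.pi))|
      ≤ 2 * Real.pi * (1 / 2) := by gcongr
    _ = Real.pi := by ring

theorem red_cases {ρ y : ℝ} {n : ℤ}
    (h : |y - 2 * Real.pi * n| < 2 * Real.pi - ρ) (hρ : ρ < Real.pi)
    (hne : round (y / (2 * Real.pi)) ≠ n) :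
    ρ ≤ |y - 2 * Real.pi * round (y / (2 * Real.pi))| ∧ ρ ≤ |y - 2 * Real.pi * n| := by
  set m := round (y / (2 * Real.pi)) with hm
  have h1 := abs_red_le y
  rw [← hm] at h1
  have h2 : (1 : ℝ) ≤ |((m - n : ℤ) : ℝ)| := by
    have : (1 : ℤ) ≤ |m - n| := Int.one_le_abs (sub_ne_zero.mpr hne)
    exact_mod_cast this
  have h3 : 2 * Real.pi ≤ |y - 2 * Real.pi * n| + |y - 2 * Real.pi * m| := by
    calc 2 * Real.pi = 2 * Real.pi * 1 := by ring
      _ ≤ 2 * Real.pi * |((m - n : ℤ) : ℝ)| := by gcongr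
      _ = |(y - 2 * Real.pi * n) - (y - 2 * Real.pi * m)| := by
          rw [show (y - 2 * Real.pi * n) - (y - 2 * Real.pi * m)
            = (2 * Real.pi) * ((m - n : ℤ) : ℝ) by push_cast; ring, abs_mul,
            abs_of_pos (by positivity : 0 < 2 * Real.pi)]
      _ ≤ _ := abs_sub _ _
  constructor <;> linarith

/-- coordinates -/
noncomputable def ofE : E3 ≃L[ℝ] V3 := EuclideanSpace.equiv (Fin 3) ℝ

noncomputable def toE : V3 ≃L[ℝ] E3 := (EuclideanSpace.equiv (Fin 3) ℝ).symm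

@[simp] theorem ofE_apply (x : E3) (j : Fin 3) : ofE x j = x j := rfl

@[simp] theorem toE_apply (x : V3) (j : Fin 3) : toE x j = x j := rfl

theorem ofE_toE (x : V3) : ofE (toE x) = x := rfl

/-- the lattice vector closest to `x` -/
noncomputable def lat (x : E3) : V3 := fun j => 2 * Real.pi * round (x j / (2 * Real.pi))

/-- translation by the lattice vector of `c` -/
noncomputable def sh (c y : E3) : V3 := ofE y - lat c

/-- reduction modulo the lattice -/
noncomputable def red (x : E3) : V3 := sh x x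

theorem near (c : E3) : ∀ᶠ y in 𝓝 c, red y = sh c y ∨ (1 < ‖red y‖ ∧ 1 < ‖sh c y‖) := by
  have hpi : (3 : ℝ) < Real.pi := Real.pi_gt_three
  have h1 : ∀ j : Fin 3, ∀ᶠ y : E3 in 𝓝 c,
      |y j - 2 * Real.pi * round (c j / (2 * Real.pi))| < 2 * Real.pi - 2 := by
    intro j
    have c0 : Continuous fun y : E3 => |y j - 2 * Real.pi * round (c j / (2 * Real.pi))| := by
      fun_prop
    refine c0.continuousAt.eventually_lt continuousAt_const ?_
    have := abs_red_le (c j)
    linarith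
  have h2 : ∀ᶠ y : E3 in 𝓝 c, ∀ j : Fin 3,
      |y j - 2 * Real.pi * round (c j / (2 * Real.pi))| < 2 * Real.pi - 2 :=
    eventually_all.2 h1
  filter_upwards [h2] with y hy
  by_cases h : ∀ j, round (y j / (2 * Real.pi)) = round (c j / (2 * Real.pi))
  · left
    unfold red sh
    congr 1
    funext j
    unfold lat
    rw [h j]
  · right
    push Not at h
    obtain ⟨j, hj⟩ := h
    obtain ⟨a1, a2⟩ := red_cases (hy j) (by linarith) hj
    constructor
    · have h3 : ‖(red y) j‖ ≤ ‖red y‖ := norm_le_pi_norm (red y) j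
      have h4 : (2 : ℝ) ≤ ‖(red y) j‖ := a1
      linarith
    · have h3 : ‖(sh c y) j‖ ≤ ‖sh c y‖ := norm_le_pi_norm (sh c y) j
      have h4 : (2 : ℝ) ≤ ‖(sh c y) j‖ := a2
      linarith

theorem near_eq {Z : Type} [Zero Z] (c : E3) : ∀ᶠ y in 𝓝 c, ∀ g : V3 → Z,
    (∀ x, 1 < ‖x‖ → g x = 0) → g (red y) = g (sh c y) := by
  filter_upwards [near c] with y hy g hg
  rcases hy with h | ⟨h1, h2⟩
  · rw [h]
  · rw [hg _ h1, hg _ h2]

theorem red_period (i : Fin 3) (x : E3) : red (x + (2 * Real.pi) • e i) = red x := by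
  have hpi : (2 * Real.pi) ≠ 0 := by positivity
  funext j
  show (x + (2 * Real.pi) • e i) j - 2 * Real.pi * round ((x + (2 * Real.pi) • e i) j /
    (2 * Real.pi)) = x j - 2 * Real.pi * round (x j / (2 * Real.pi))
  by_cases hij : j = i
  · subst hij
    have h1 : (x + (2 * Real.pi) • e j) j = x j + 2 * Real.pi := by simp [e]
    rw [h1]
    have h2 : (x j + 2 * Real.pi) / (2 * Real.pi) = x j / (2 * Real.pi) + 1 := by field_simp
    rw [h2, round_add_one]
    push_cast
    ring
  · have h1 : (x + (2 * Real.pi) • e i) j = x j := by simp [e, hij]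
    rw [h1]

theorem red_zero : red 0 = 0 := by
  funext j
  show (0 : E3) j - 2 * Real.pi * round ((0 : E3) j / (2 * Real.pi)) = 0
  simp

theorem sh_self (x : E3) : sh x x = red x := rfl

theorem sh_contDiff (c : E3) : ContDiff ℝ ∞ (sh c) := ofE.contDiff.sub contDiff_const

theorem sh_hasFDerivAt (c x : E3) : HasFDerivAt (sh c) (ofE : E3 →L[ℝ] V3) x := by
  have h1 : HasFDerivAt (fun y : E3 => ofE y) (ofE : E3 →L[ℝ] V3) x :=
    (ofE : E3 →L[ℝ] V3).hasFDerivAt
  exact h1.sub_const _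

/-! ### Smoothness -/

theorem smooth_at {Z : Type} [NormedAddCommGroup Z] [NormedSpace ℝ Z] {g : ℝ → V3 → Z} {T t : ℝ}
    {x : E3} (ht : t < T) (h0 : ∀ t < T, ∀ x, 1 < ‖x‖ → g t x = 0)
    (hg : ContDiffOn ℝ ∞ (fun z : ℝ × V3 => g z.1 z.2) (Iio T ×ˢ univ)) :
    ContDiffAt ℝ ∞ (fun z : ℝ × E3 => g z.1 (red z.2)) (t, x) := by
  have h1 : ContDiffAt ℝ ∞ (fun z : ℝ × V3 => g z.1 z.2) (t, sh x x) := by
    refine (hg (t, sh x x) ⟨ht, mem_univ _⟩).contDiffAt ?_
    exact (isOpen_Iio.prod isOpen_univ).mem_nhds ⟨ht, mem_univ _⟩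
  have h2 : ContDiffAt ℝ ∞ (fun z : ℝ × E3 => (z.1, sh x z.2)) (t, x) :=
    (contDiff_fst.prodMk ((sh_contDiff x).comp contDiff_snd)).contDiffAt
  have h3 : ContDiffAt ℝ ∞ (fun z : ℝ × E3 => g z.1 (sh x z.2)) (t, x) :=
    ContDiffAt.comp (g := fun z : ℝ × V3 => g z.1 z.2) (t, x) h1 h2
  refine h3.congr_of_eventuallyEq ?_
  have h4 : ∀ᶠ z : ℝ × E3 in 𝓝 (t, x), z.1 < T :=
    (continuous_fst.continuousAt (x := (t, x))).eventually_lt continuousAt_const ht
  have h5 : ∀ᶠ z : ℝ × E3 in 𝓝 (t, x), ∀ g : V3 → Z,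
      (∀ x, 1 < ‖x‖ → g x = 0) → g (red z.2) = g (sh x z.2) :=
    (continuous_snd.tendsto (t, x)).eventually (near_eq x)
  filter_upwards [h4, h5] with z hz1 hz2
  exact hz2 (g z.1) (h0 z.1 hz1)

theorem smooth_on {Z : Type} [NormedAddCommGroup Z] [NormedSpace ℝ Z] {g : ℝ → V3 → Z} {T : ℝ}
    (h0 : ∀ t < T, ∀ x, 1 < ‖x‖ → g t x = 0)
    (hg : ContDiffOn ℝ ∞ (fun z : ℝ × V3 => g z.1 z.2) (Iio T ×ˢ univ)) :
    ContDiffOn ℝ ∞ (fun z : ℝ × E3 => g z.1 (red z.2)) (Iio T ×ˢ univ) :=
  fun z hz => (smooth_at (x := z.2) hz.1 h0 hg).contDiffWithinAt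

/-! ### Derivatives -/

theorem fderiv_vec {h : V3 → V3} (h0 : ∀ x, 1 < ‖x‖ → h x = 0) {x : E3}
    (hd : DifferentiableAt ℝ h (red x)) :
    HasFDerivAt (fun y => toE (h (red y)))
      ((toE : V3 →L[ℝ] E3).comp ((fderiv ℝ h (red x)).comp (ofE : E3 →L[ℝ] V3))) x := by
  have h1 : HasFDerivAt (fun y => h (sh x y))
      ((fderiv ℝ h (red x)).comp (ofE : E3 →L[ℝ] V3)) x := by
    have h2 : HasFDerivAt h (fderiv ℝ h (red x)) (sh x x) := hd.hasFDerivAt
    exact h2.comp x (sh_hasFDerivAt x x)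
  have h3 : HasFDerivAt (fun y => toE (h (sh x y)))
      ((toE : V3 →L[ℝ] E3).comp ((fderiv ℝ h (red x)).comp (ofE : E3 →L[ℝ] V3))) x :=
    (toE : V3 →L[ℝ] E3).hasFDerivAt.comp x h1
  refine h3.congr_of_eventuallyEq ?_
  filter_upwards [near_eq (Z := V3) x] with y hy
  rw [hy h h0]

theorem fderiv_scal {h : V3 → ℝ} (h0 : ∀ x, 1 < ‖x‖ → h x = 0) {x : E3}
    (hd : DifferentiableAt ℝ h (red x)) :
    HasFDerivAt (fun y => h (red y)) ((fderiv ℝ h (red x)).comp (ofE : E3 →L[ℝ] V3)) x := by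
  have h1 : HasFDerivAt (fun y => h (sh x y))
      ((fderiv ℝ h (red x)).comp (ofE : E3 →L[ℝ] V3)) x := by
    have h2 : HasFDerivAt h (fderiv ℝ h (red x)) (sh x x) := hd.hasFDerivAt
    exact h2.comp x (sh_hasFDerivAt x x)
  refine h1.congr_of_eventuallyEq ?_
  filter_upwards [near_eq (Z := ℝ) x] with y hy
  rw [hy h h0]

theorem ofE_e (i : Fin 3) : ofE (e i) = Pi.single i 1 := by
  funext j
  rw [ofE_apply]
  by_cases h : j = i
  · subst h; simp [e]
  · simp [e, h]

theorem comp_fderiv {h : V3 → V3} {v : V3} (hd : DifferentiableAt ℝ h v) (w : V3) (j : Fin 3) :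
    fderiv ℝ h v w j = fderiv ℝ (fun y => h y j) v w := by
  have h1 := (hasFDerivAt_pi'.1 hd.hasFDerivAt) j
  rw [h1.fderiv]
  rfl

theorem fderiv_expand {f : V3 →L[ℝ] ℝ} (w : V3) :
    f w = ∑ i, w i * f (Pi.single i 1) := by
  conv_lhs => rw [pi_eq_sum_univ' w]
  rw [map_sum]
  refine Finset.sum_congr rfl fun i _ => ?_
  rw [map_smul, smul_eq_mul]

/-- joint smoothness gives differentiability in space -/
theorem diff_space {Z : Type} [NormedAddCommGroup Z] [NormedSpace ℝ Z] {g : ℝ → V3 → Z} {T t : ℝ}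
    (ht : t < T) (hg : ContDiffOn ℝ ∞ (fun z : ℝ × V3 => g z.1 z.2) (Iio T ×ˢ univ)) (v : V3) :
    DifferentiableAt ℝ (g t) v ∧ DifferentiableAt ℝ (fun s => g s v) t := by
  have h1 : ContDiffAt ℝ ∞ (fun z : ℝ × V3 => g z.1 z.2) (t, v) := by
    refine (hg (t, v) ⟨ht, mem_univ _⟩).contDiffAt ?_
    exact (isOpen_Iio.prod isOpen_univ).mem_nhds ⟨ht, mem_univ _⟩
  have h2 : DifferentiableAt ℝ (fun z : ℝ × V3 => g z.1 z.2) (t, v) :=
    h1.differentiableAt (by simp)
  constructor
  · exact DifferentiableAt.comp (g := fun z : ℝ × V3 => g z.1 z.2) v h2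
      ((differentiableAt_const t).prodMk differentiableAt_id)
  · have h3 : DifferentiableAt ℝ (fun s : ℝ => (s, v)) t := by fun_prop
    exact DifferentiableAt.comp (g := fun z : ℝ × V3 => g z.1 z.2) t h2 h3

/-- entries of the velocity gradient of the periodisation -/
theorem entry {h : V3 → V3} (h0 : ∀ x, 1 < ‖x‖ → h x = 0) {x : E3}
    (hd : DifferentiableAt ℝ h (red x)) (i j : Fin 3) :
    (fderiv ℝ (fun y => toE (h (red y))) x (e i)) j =
      fderiv ℝ (fun y => h y j) (red x) (Pi.single i 1) := by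
  rw [(fderiv_vec h0 hd).fderiv]
  show (toE (fderiv ℝ h (red x) (ofE (e i)))) j = _
  rw [toE_apply, ofE_e, comp_fderiv hd]

theorem gradient_apply {f : E3 → ℝ} (x : E3) (j : Fin 3) :
    (gradient f x) j = fderiv ℝ f x (e j) := by
  have h := inner_gradient_left (𝕜 := ℝ) (f := f) (x := x) (y := e j)
  have h2 : inner ℝ (gradient f x) (e j) = (gradient f x) j := by
    unfold e
    rw [EuclideanSpace.inner_single_right]
    simp only [one_mul]
    rfl
  exact h2.symm.trans h

end C10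

open C10 in
theorem prfC10 : claimC10 := by
  intro T f u p hT S
  have hfs : ∀ t x, 1 < ‖x‖ → f t x = 0 := S.f_supp
  refine ⟨fun t x => toE (f t (red x)), fun t x => toE (u t (red x)), fun t x => p t (red x),
    ?_, ?_, ?_, ?_, ?_, ?_, ?_, ?_, ?_, ?_, ?_⟩
  · rw [contDiff_iff_contDiffAt]
    intro z
    have h := smooth_at (g := f) (T := z.1 + 1) (t := z.1) (x := z.2) (by linarith)
      (fun t _ x hx => hfs t x hx) S.f_smooth.contDiffOn
    exact toE.contDiff.contDiffAt.comp z h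
  · intro t i x
    show toE (f t (red (x + (2 * Real.pi) • e i))) = toE (f t (red x))
    rw [red_period]
  · refine ⟨4, fun t ht x => ?_⟩
    show toE (f t (red x)) = 0
    rw [S.f_time t ht, map_zero]
  · exact toE.contDiff.comp_contDiffOn (smooth_on S.u_supp S.u_smooth)
  · exact smooth_on S.p_supp S.p_smooth
  · intro t _ i x
    show toE (u t (red (x + (2 * Real.pi) • e i))) = toE (u t (red x))
    rw [red_period]
  · intro t _ i x
    show p t (red (x + (2 * Real.pi) • e i)) = p t (red x)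
    rw [red_period]
  · intro t ht x
    show toE (u t (red x)) = 0
    rw [S.u_zero t ht, map_zero]
  · intro t ht x
    obtain ⟨hd, hdt⟩ := diff_space ht S.u_smooth (red x)
    obtain ⟨hdp, _⟩ := diff_space ht S.p_smooth (red x)
    have e1 : deriv (fun s => toE (u s (red x))) t = toE (deriv (fun s => u s (red x)) t) := by
      have h1 := hdt.hasDerivAt
      have h2 := (toE : V3 →L[ℝ] E3).hasFDerivAt.comp_hasDerivAt t h1
      exact h2.deriv
    have e2 : ∀ j, deriv (fun s => u s (red x)) t j = deriv (fun s => u s (red x) j) t := by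
      intro j
      have h1 := (hasDerivAt_pi.1 hdt.hasDerivAt) j
      exact h1.deriv.symm
    have e3 : ∀ j, (fderiv ℝ (fun y => toE (u t (red y))) x (toE (u t (red x)))) j =
        ∑ i, u t (red x) i * fderiv ℝ (fun y => u t y j) (red x) (Pi.single i 1) := by
      intro j
      rw [(fderiv_vec (S.u_supp t ht) hd).fderiv]
      show (toE (fderiv ℝ (u t) (red x) (ofE (toE (u t (red x)))))) j = _
      rw [toE_apply, ofE_toE, comp_fderiv hd]
      exact fderiv_expand _
    have e4 : ∀ j, (gradient (fun y => p t (red y)) x) j =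
        fderiv ℝ (p t) (red x) (Pi.single j 1) := by
      intro j
      rw [gradient_apply, (fderiv_scal (S.p_supp t ht) hdp).fderiv]
      show fderiv ℝ (p t) (red x) (ofE (e j)) = _
      rw [ofE_e]
    have hE := S.euler t ht (red x)
    ext j
    show (deriv (fun s => toE (u s (red x))) t) j
      + (fderiv ℝ (fun y => toE (u t (red y))) x (toE (u t (red x)))) j
      = - (gradient (fun y => p t (red y)) x) j + f t (red x) j
    rw [e1, toE_apply, e2, e3, e4, ← hE j]
    unfold eu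
    ring
  · intro t ht x
    obtain ⟨hd, _⟩ := diff_space ht S.u_smooth (red x)
    show LinearMap.trace ℝ E3 (fderiv ℝ (fun y => toE (u t (red y))) x : E3 →L[ℝ] E3) = 0
    rw [trace_eq, entry (S.u_supp t ht) hd, entry (S.u_supp t ht) hd,
      entry (S.u_supp t ht) hd]
    have h := S.div_free t ht (red x)
    rw [Fin.sum_univ_three] at h
    exact h
  · rw [tendsto_atTop]
    intro B
    obtain ⟨t0, ht0, hB⟩ := S.blow B
    filter_upwards [Ioo_mem_nhdsLT ht0] with t ht
    obtain ⟨j, hj⟩ := hB t ht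
    have hd0 := (diff_space ht.2 S.u_smooth (red 0)).1
    have e0 : ∀ i k : Fin 3, (fderiv ℝ (fun y => toE (u t (red y))) 0 (e i)) k =
        fderiv ℝ (fun y => u t y k) 0 (Pi.single i 1) := by
      intro i k
      rw [entry (S.u_supp t ht.2) hd0, red_zero]
    have e5 : (curl (fun y => toE (u t (red y))) 0) j = curlV (u t) 0 j := by
      unfold curl
      fin_cases j
      · show axial _ 0 = _
        rw [axial_zero, e0, e0]
        rfl
      · show axial _ 1 = _
        rw [axial_one, e0, e0]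
        rfl
      · show axial _ 2 = _
        rw [axial_two, e0, e0]
        rfl
    rw [← e5] at hj
    refine hj.trans ?_
    exact PiLp.norm_apply_le (curl (fun y => toE (u t (red y))) 0) j

end Pool.Agent.Work.MP_b0497c_an.Forced
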