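import Pool.Agent.Work.MP_b0497c_an.Forced.Asm.Defs
import Pool.Agent.Work.MP_b0497c_an.Bd.B21

set_option autoImplicit false

/-!
# Assembly, item C11: uniqueness of classical solutions of the forced Euler equations
-/

open scoped ContDiff Matrix
open Set Filter Topology MeasureTheory RealInnerProductSpace Pool.Agent.Work.MP_b0497c_an
open Pool.Agent.Work.MP_b0497c_an.Dec Pool.Agent.Work.MP_b0497c_an.Dec.Uniq

namespace Pool.Agent.Work.MP_b0497c_an.Forced

namespace C11

/-- The pressure does no work on a divergence free field. -/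
theorem press_zero {π : E3 → ℝ} {w : E3 → E3} (hπ : ContDiff ℝ 1 π) (hπp : Periodic3 π)
    (hw : ContDiff ℝ 1 w) (hwp : Periodic3 w)
    (hdiv : ∀ x, LinearMap.trace ℝ E3 (fderiv ℝ w x) = 0) :
    ∫ x in cube, fderiv ℝ π x (w x) = 0 := by
  have hG : ContDiff ℝ 1 (fun y => π y • w y) := hπ.smul hw
  have hGp : Periodic3 (fun y => π y • w y) := by
    intro i x
    simp only [hπp i x, hwp i x]
  have h1 := per_div_cube hG hGp
  have e1 : ∀ x, LinearMap.trace ℝ (EuclideanSpace ℝ (Fin 3))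
      (fderiv ℝ (fun y => π y • w y) x) = fderiv ℝ π x (w x) := by
    intro x
    have hπ' : HasFDerivAt π (fderiv ℝ π x) x := (hπ.differentiable (by norm_num) x).hasFDerivAt
    have hw' : HasFDerivAt w (fderiv ℝ w x) x := (hw.differentiable (by norm_num) x).hasFDerivAt
    have hG' : fderiv ℝ (fun y => π y • w y) x = _ := (hπ'.smul hw').fderiv
    rw [hG', trace_eq]
    have hd := hdiv x
    rw [trace_eq] at hd
    have hwx : fderiv ℝ π x (w x) = (w x) 0 • fderiv ℝ π x (e 0)
        + (w x) 1 • fderiv ℝ π x (e 1) + (w x) 2 • fderiv ℝ π x (e 2) := by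
      conv_lhs => rw [expand (w x)]
      simp only [map_add, map_smul]
    rw [hwx]
    simp
    linear_combination (π x) * hd
  simp only [e1] at h1
  exact h1

variable {T : ℝ} {f u : ℝ → E3 → E3} {p : ℝ → E3 → ℝ}

theorem cd_u (h : IsForcedSolution T f u p) {t : ℝ} (ht : t ∈ Ico 0 T) : ContDiff ℝ 1 (u t) := by
  have h2 : ContDiff ℝ 1 (fun x : E3 => (t, x)) := contDiff_const.prodMk contDiff_id
  have h3 : ContDiffOn ℝ 1 ((fun z : ℝ × E3 => u z.1 z.2) ∘ (fun x : E3 => (t, x))) univ :=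
    ContDiffOn.comp h.contDiff_u h2.contDiffOn (fun x _ => ⟨ht, mem_univ _⟩)
  exact contDiffOn_univ.mp h3

theorem cd_p (h : IsForcedSolution T f u p) {t : ℝ} (ht : t ∈ Ico 0 T) : ContDiff ℝ 1 (p t) := by
  have h2 : ContDiff ℝ 1 (fun x : E3 => (t, x)) := contDiff_const.prodMk contDiff_id
  have h3 : ContDiffOn ℝ 1 ((fun z : ℝ × E3 => p z.1 z.2) ∘ (fun x : E3 => (t, x))) univ :=
    ContDiffOn.comp h.contDiff_p h2.contDiffOn (fun x _ => ⟨ht, mem_univ _⟩)
  exact contDiffOn_univ.mp h3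

theorem cont_u (h : IsForcedSolution T f u p) {β : ℝ} (hβ : β < T) :
    ContinuousOn (fun z : ℝ × E3 => u z.1 z.2) (Icc 0 β ×ˢ univ) :=
  h.contDiff_u.continuousOn.mono (prod_mono (sub_Ico hβ) (Subset.refl _))

theorem bound_u (h : IsForcedSolution T f u p) {β : ℝ} (hβ : β < T) :
    ∃ C : ℝ, 0 ≤ C ∧ ∀ t ∈ Icc 0 β, ∀ x, ‖u t x‖ ≤ C :=
  exists_bound (cont_u h hβ) fun t ht => h.periodic_u t (sub_Ico hβ ht)

theorem bound_M (h : IsForcedSolution T f u p) {β : ℝ} (hβ : β < T) :
    ∃ C : ℝ, 0 ≤ C ∧ ∀ t ∈ Icc 0 β, ∀ x, ‖fderiv ℝ (u t) x‖ ≤ C :=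
  exists_bound (G := fun t x => fderiv ℝ (u t) x)
    ((continuousOn_fderiv h.contDiff_u).mono (prod_mono (sub_Ico hβ) (Subset.refl _)))
    fun t ht => (h.periodic_u t (sub_Ico hβ ht)).fderiv

theorem per_dt (h : IsForcedSolution T f u p) {t : ℝ} (ht : t ∈ Ico 0 T) :
    Periodic3 (fun x => derivWithin (fun s => u s x) (Ico 0 T) t) := by
  intro i x
  apply derivWithin_congr
  · intro s hs
    exact h.periodic_u s hs i x
  · exact h.periodic_u t ht i x

theorem cont_dt (h : IsForcedSolution T f u p) {t : ℝ} (ht : t ∈ Ico 0 T) :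
    Continuous (fun x => derivWithin (fun s => u s x) (Ico 0 T) t) := by
  have c3 : Continuous (fun x : E3 => (t, x)) := by fun_prop
  have c4 : ContinuousOn ((fun z : ℝ × E3 => derivWithin (fun s => u s z.2) (Ico 0 T) z.1)
      ∘ (fun x : E3 => (t, x))) univ :=
    ContinuousOn.comp (continuousOn_derivWithin h.contDiff_u) c3.continuousOn
      (fun x _ => ⟨ht, mem_univ _⟩)
  exact continuousOn_univ.mp c4

theorem bound_dt (h : IsForcedSolution T f u p) {β : ℝ} (hβ : β < T) :
    ∃ C : ℝ, 0 ≤ C ∧ ∀ t ∈ Icc 0 β, ∀ x, ‖derivWithin (fun s => u s x) (Ico 0 T) t‖ ≤ C :=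
  exists_bound (G := fun t x => derivWithin (fun s => u s x) (Ico 0 T) t)
    ((continuousOn_derivWithin h.contDiff_u).mono (prod_mono (sub_Ico hβ) (Subset.refl _)))
    fun t ht => per_dt h (sub_Ico hβ ht)

theorem hasDerivAt_time (h : IsForcedSolution T f u p) {t : ℝ} (ht : t ∈ Ioo 0 T) (x : E3) :
    HasDerivAt (fun s => u s x) (derivWithin (fun s => u s x) (Ico 0 T) t) t := by
  have h1 := hasDerivWithinAt_along h.contDiff_u (I := Ico 0 T) (Subset.refl _)
    (t := t) ⟨ht.1.le, ht.2⟩ (X := fun _ => x) (X' := 0) (hasDerivWithinAt_const _ _ _)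
  simp only [map_zero, add_zero] at h1
  exact h1.hasDerivAt (Ico_mem_nhds ht.1 ht.2)

theorem int3 {f1 f2 f3 : E3 → ℝ} (c1 : Continuous f1) (c2 : Continuous f2)
    (c3 : Continuous f3) :
    ∫ x in cube, (f1 x - f2 x - f3 x)
      = (∫ x in cube, f1 x) - (∫ x in cube, f2 x) - ∫ x in cube, f3 x := by
  have i1 : IntegrableOn f1 cube := c1.continuousOn.integrableOn_compact cube_compact
  have i2 : IntegrableOn f2 cube := c2.continuousOn.integrableOn_compact cube_compact
  have i3 : IntegrableOn f3 cube := c3.continuousOn.integrableOn_compact cube_compact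
  have i12 : IntegrableOn (fun x => f1 x - f2 x) cube := i1.sub i2
  rw [integral_sub i12 i3, integral_sub i1 i2]

theorem div_sub {g h : E3 → E3} (hg : ContDiff ℝ 1 g) (hh : ContDiff ℝ 1 h)
    (dg : ∀ x, LinearMap.trace ℝ E3 (fderiv ℝ g x) = 0)
    (dh : ∀ x, LinearMap.trace ℝ E3 (fderiv ℝ h x) = 0) (x : E3) :
    LinearMap.trace ℝ E3 (fderiv ℝ (fun x => g x - h x) x) = 0 := by
  have h1 : fderiv ℝ (fun x => g x - h x) x = fderiv ℝ g x - fderiv ℝ h x :=
    fderiv_fun_sub (hg.differentiable (by norm_num) x) (hh.differentiable (by norm_num) x)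
  rw [h1]
  have h2 : LinearMap.trace ℝ E3 ((fderiv ℝ g x - fderiv ℝ h x : E3 →L[ℝ] E3) : E3 →ₗ[ℝ] E3)
      = LinearMap.trace ℝ E3 (fderiv ℝ g x : E3 →ₗ[ℝ] E3)
        - LinearMap.trace ℝ E3 (fderiv ℝ h x : E3 →ₗ[ℝ] E3) := by
    rw [← map_sub]; rfl
  rw [h2, dg x, dh x, sub_zero]

variable {T₁ T₂ : ℝ} {v : ℝ → E3 → E3} {q : ℝ → E3 → ℝ}

/-- The derivative of the energy of the difference. -/
theorem energy_deriv (hu : IsForcedSolution T₁ f u p) (hv : IsForcedSolution T₂ f v q)
    {t : ℝ} (h0 : 0 < t) (h1 : t < T₁) (h2 : t < T₂) :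
    HasDerivAt (fun s => ∫ x in cube, ‖u s x - v s x‖ ^ 2)
      (-2 * ∫ x in cube, ⟪fderiv ℝ (v t) x (u t x - v t x), u t x - v t x⟫) t := by
  obtain ⟨β, hβt, hβ⟩ : ∃ β, t < β ∧ β < min T₁ T₂ := exists_between (lt_min h1 h2)
  have hβ1 : β < T₁ := hβ.trans_le (min_le_left _ _)
  have hβ2 : β < T₂ := hβ.trans_le (min_le_right _ _)
  obtain ⟨U, hU0, hU⟩ := bound_u hu hβ1
  obtain ⟨U', hU'0, hU'⟩ := bound_u hv hβ2
  obtain ⟨D, hD0, hD⟩ := bound_dt hu hβ1
  obtain ⟨D', hD'0, hD'⟩ := bound_dt hv hβ2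
  have hfin : IsFiniteMeasure (volume.restrict cube) :=
    ⟨by rw [Measure.restrict_apply_univ]; exact cube_compact.measure_lt_top⟩
  have cu : ∀ s ∈ Icc 0 β, Continuous (u s) := fun s hs =>
    (cd_u hu (sub_Ico hβ1 hs)).continuous
  have cv : ∀ s ∈ Icc 0 β, Continuous (v s) := fun s hs =>
    (cd_u hv (sub_Ico hβ2 hs)).continuous
  have htI : t ∈ Ioo 0 β := ⟨h0, hβt⟩
  have htc : t ∈ Icc 0 β := Ioo_subset_Icc_self htI
  have ht1 : t ∈ Ico 0 T₁ := ⟨h0.le, h1⟩
  have ht2 : t ∈ Ico 0 T₂ := ⟨h0.le, h2⟩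
  have key := hasDerivAt_integral_of_dominated_loc_of_deriv_le (μ := volume.restrict cube)
    (F := fun s x => ‖u s x - v s x‖ ^ 2) (x₀ := t) (s := Ioo 0 β)
    (bound := fun _ => 2 * ((U + U') * (D + D')))
    (F' := fun s x => 2 * ⟪u s x - v s x, derivWithin (fun r => u r x) (Ico 0 T₁) s
      - derivWithin (fun r => v r x) (Ico 0 T₂) s⟫)
    (Ioo_mem_nhds htI.1 htI.2)
    (by filter_upwards [Ioo_mem_nhds htI.1 htI.2] with s hs
        have hs' := Ioo_subset_Icc_self hs
        exact (((cu s hs').sub (cv s hs')).norm.pow 2).aestronglyMeasurable)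
    ((((cu t htc).sub (cv t htc)).norm.pow 2).continuousOn.integrableOn_compact cube_compact)
    ((continuous_const.mul (((cu t htc).sub (cv t htc)).inner
      ((cont_dt hu ht1).sub (cont_dt hv ht2)))).aestronglyMeasurable)
    (ae_of_all _ fun x s hs => by
      rw [norm_mul, Real.norm_eq_abs, Real.norm_eq_abs, abs_of_pos (show (0:ℝ) < 2 by norm_num)]
      have hs' := Ioo_subset_Icc_self hs
      gcongr
      refine (abs_real_inner_le_norm _ _).trans (mul_le_mul ?_ ?_ (norm_nonneg _) (by positivity))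
      · exact (norm_sub_le _ _).trans (add_le_add (hU s hs' x) (hU' s hs' x))
      · exact (norm_sub_le _ _).trans (add_le_add (hD s hs' x) (hD' s hs' x)))
    (integrable_const _)
    (ae_of_all _ fun x s hs => ((hasDerivAt_time hu ⟨hs.1, hs.2.trans hβ1⟩ x).sub
      (hasDerivAt_time hv ⟨hs.1, hs.2.trans hβ2⟩ x)).norm_sq)
  have hk := key.2
  refine hk.congr_deriv ?_
  have mu := cd_u hu ht1
  have mv := cd_u hv ht2
  have mp := cd_p hu ht1
  have mq := cd_p hv ht2
  have du := hu.div_free t ht1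
  have dv := hv.div_free t ht2
  have pu := hu.periodic_u t ht1
  have pv := hv.periodic_u t ht2
  have pp := hu.periodic_p t ht1
  have pq := hv.periodic_p t ht2
  have mw : ContDiff ℝ 1 (fun x => u t x - v t x) := mu.sub mv
  have pw : Periodic3 (fun x => u t x - v t x) := by
    intro i x
    show u t _ - v t _ = _
    rw [pu i x, pv i x]
  have dw := div_sub mu mv du dv
  have mpi : ContDiff ℝ 1 (fun x => p t x - q t x) := mp.sub mq
  have ppi : Periodic3 (fun x => p t x - q t x) := by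
    intro i x
    show p t _ - q t _ = _
    rw [pp i x, pq i x]
  have e1 := press_zero mpi ppi mw pw dw
  have e3 := transport_zero mu pu du mw pw
  have cMw : Continuous (fun x => fderiv ℝ (fun x => u t x - v t x) x (u t x)) :=
    (mw.continuous_fderiv (by norm_num)).clm_apply mu.continuous
  have cMvw : Continuous (fun x => fderiv ℝ (v t) x (u t x - v t x)) :=
    (mv.continuous_fderiv (by norm_num)).clm_apply mw.continuous
  have cw : Continuous (fun x => u t x - v t x) := mw.continuous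
  have e4 : ∀ x, 2 * ⟪u t x - v t x, derivWithin (fun r => u r x) (Ico 0 T₁) t
      - derivWithin (fun r => v r x) (Ico 0 T₂) t⟫
      = 2 * (- fderiv ℝ (fun x => p t x - q t x) x (u t x - v t x)
          - ⟪fderiv ℝ (fun x => u t x - v t x) x (u t x), u t x - v t x⟫
          - ⟪fderiv ℝ (v t) x (u t x - v t x), u t x - v t x⟫) := by
    intro x
    have hfd : fderiv ℝ (fun x => u t x - v t x) x = fderiv ℝ (u t) x - fderiv ℝ (v t) x :=
      fderiv_fun_sub (mu.differentiable (by norm_num) x)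
        (mv.differentiable (by norm_num) x)
    have hfp : fderiv ℝ (fun x => p t x - q t x) x = fderiv ℝ (p t) x - fderiv ℝ (q t) x :=
      fderiv_fun_sub (mp.differentiable (by norm_num) x)
        (mq.differentiable (by norm_num) x)
    have gp : ∀ y, fderiv ℝ (p t) x y = ⟪gradient (p t) x, y⟫ := by
      intro y
      rw [gradient, InnerProductSpace.toDual_symm_apply]
    have gq : ∀ y, fderiv ℝ (q t) x y = ⟪gradient (q t) x, y⟫ := by
      intro y
      rw [gradient, InnerProductSpace.toDual_symm_apply]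
    have m1 : derivWithin (fun r => u r x) (Ico 0 T₁) t
        = - gradient (p t) x + f t x - fderiv ℝ (u t) x (u t x) := by
      rw [← hu.momentum t ht1 x]; abel
    have m2 : derivWithin (fun r => v r x) (Ico 0 T₂) t
        = - gradient (q t) x + f t x - fderiv ℝ (v t) x (v t x) := by
      rw [← hv.momentum t ht2 x]; abel
    rw [hfd, hfp, m1, m2, real_inner_comm]
    simp only [sub_apply, map_sub, gp, gq, inner_add_left, inner_sub_right, inner_sub_left,
      inner_neg_left]
    ring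
  simp only [e4]
  have c1 : Continuous (fun x => - fderiv ℝ (fun x => p t x - q t x) x (u t x - v t x)) :=
    ((mpi.continuous_fderiv (by norm_num)).clm_apply cw).neg
  have c3 : Continuous (fun x => ⟪fderiv ℝ (fun x => u t x - v t x) x (u t x),
      u t x - v t x⟫) := cMw.inner cw
  have c4 : Continuous (fun x => ⟪fderiv ℝ (v t) x (u t x - v t x), u t x - v t x⟫) :=
    cMvw.inner cw
  rw [integral_const_mul, int3 c1 c3 c4, integral_neg, e1, e3]
  ring

end C11

open C11 in
theorem prfC11 : claimC11 := by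
  intro T₁ T₂ f u v p q hu hv h0 t htm
  obtain ⟨ht, hlt⟩ := htm
  have h1 : t < T₁ := hlt.trans_le (min_le_left _ _)
  have h2 : t < T₂ := hlt.trans_le (min_le_right _ _)
  rcases ht.eq_or_lt with rfl | hpos
  · exact h0
  have htc : t ∈ Icc 0 t := ⟨ht, le_rfl⟩
  have ht1 : t ∈ Ico 0 T₁ := ⟨ht, h1⟩
  have ht2 : t ∈ Ico 0 T₂ := ⟨ht, h2⟩
  obtain ⟨K, hK0, hK⟩ := C11.bound_M hv h2
  obtain ⟨U, hU0, hU⟩ := C11.bound_u hu h1
  obtain ⟨U', hU'0, hU'⟩ := C11.bound_u hv h2
  have hfin : IsFiniteMeasure (volume.restrict cube) :=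
    ⟨by rw [Measure.restrict_apply_univ]; exact cube_compact.measure_lt_top⟩
  set E : ℝ → ℝ := fun s => ∫ x in cube, ‖u s x - v s x‖ ^ 2 with hE
  have cu : ∀ s ∈ Icc 0 t, Continuous (u s) := fun s hs =>
    (cd_u hu (sub_Ico h1 hs)).continuous
  have cv : ∀ s ∈ Icc 0 t, Continuous (v s) := fun s hs =>
    (cd_u hv (sub_Ico h2 hs)).continuous
  have hcont : ContinuousOn E (Icc 0 t) := by
    apply continuousOn_of_dominated (bound := fun _ => (U + U') ^ 2)
    · intro s hs
      exact (((cu s hs).sub (cv s hs)).norm.pow 2).aestronglyMeasurable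
    · intro s hs
      refine ae_of_all _ fun x => ?_
      rw [norm_pow, norm_norm]
      exact pow_le_pow_left₀ (norm_nonneg _)
        ((norm_sub_le _ _).trans (add_le_add (hU s hs x) (hU' s hs x))) 2
    · exact integrable_const _
    · refine ae_of_all _ fun x => ?_
      have c3 : ContinuousOn (fun s : ℝ => (s, x)) (Icc 0 t) := by fun_prop
      have c4 : ContinuousOn ((fun z : ℝ × E3 => u z.1 z.2) ∘ (fun s : ℝ => (s, x))) (Icc 0 t) :=
        ContinuousOn.comp (C11.cont_u hu h1) c3 (fun s hs => ⟨hs, mem_univ _⟩)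
      have c5 : ContinuousOn ((fun z : ℝ × E3 => v z.1 z.2) ∘ (fun s : ℝ => (s, x))) (Icc 0 t) :=
        ContinuousOn.comp (C11.cont_u hv h2) c3 (fun s hs => ⟨hs, mem_univ _⟩)
      exact ((c4.sub c5).norm).pow 2
  have hder : ∀ s ∈ Ioo 0 t, ∃ d, HasDerivAt E d s ∧ d ≤ 2 * K * E s := by
    intro s hs
    have hs1 : s < T₁ := hs.2.trans h1
    have hs2 : s < T₂ := hs.2.trans h2
    refine ⟨_, C11.energy_deriv hu hv hs.1 hs1 hs2, ?_⟩
    have hsc : s ∈ Icc 0 t := Ioo_subset_Icc_self hs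
    have mu := cd_u hu (sub_Ico h1 hsc)
    have mv := cd_u hv (sub_Ico h2 hsc)
    have cw : Continuous (fun x => u s x - v s x) := mu.continuous.sub mv.continuous
    have cMvw : Continuous (fun x => fderiv ℝ (v s) x (u s x - v s x)) :=
      (mv.continuous_fderiv (by norm_num)).clm_apply cw
    have hneg : -(∫ x in cube, ⟪fderiv ℝ (v s) x (u s x - v s x), u s x - v s x⟫) ≤ K * E s := by
      rw [← integral_neg, hE]
      simp only
      rw [← integral_const_mul]
      have c1 : Continuous (fun x => -⟪fderiv ℝ (v s) x (u s x - v s x), u s x - v s x⟫) :=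
        (cMvw.inner cw).neg
      have c2 : Continuous (fun x => K * ‖u s x - v s x‖ ^ 2) :=
        continuous_const.mul (cw.norm.pow 2)
      apply integral_mono (c1.continuousOn.integrableOn_compact cube_compact)
        (c2.continuousOn.integrableOn_compact cube_compact)
      intro x
      show -⟪fderiv ℝ (v s) x (u s x - v s x), u s x - v s x⟫ ≤ K * ‖u s x - v s x‖ ^ 2
      have h5 := abs_real_inner_le_norm (fderiv ℝ (v s) x (u s x - v s x)) (u s x - v s x)
      have h6 := (fderiv ℝ (v s) x).le_of_opNorm_le (hK s hsc x) (u s x - v s x)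
      have h7 := mul_le_mul_of_nonneg_right h6 (norm_nonneg (u s x - v s x))
      have h8 := neg_abs_le ⟪fderiv ℝ (v s) x (u s x - v s x), u s x - v s x⟫
      have e5 : K * ‖u s x - v s x‖ ^ 2 = K * ‖u s x - v s x‖ * ‖u s x - v s x‖ := by ring
      rw [e5]
      linarith
    linarith
  set g : ℝ → ℝ := fun s => E s * Real.exp (-(2 * K * s)) with hg
  have hanti : AntitoneOn g (Icc 0 t) := by
    apply antitoneOn_of_deriv_nonpos (convex_Icc 0 t)
    · exact hcont.mul (by fun_prop)
    · rw [interior_Icc]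
      intro s hs
      obtain ⟨d, hd, -⟩ := hder s hs
      exact (hd.differentiableAt.mul (by fun_prop)).differentiableWithinAt
    · rw [interior_Icc]
      intro s hs
      obtain ⟨d, hd, hle⟩ := hder s hs
      have h5 : HasDerivAt (fun s : ℝ => Real.exp (-(2 * K * s)))
          (Real.exp (-(2 * K * s)) * (-(2 * K * 1))) s :=
        (((hasDerivAt_id s).const_mul (2 * K)).neg).exp
      have h8 : HasDerivAt g (d * Real.exp (-(2 * K * s))
          + E s * (Real.exp (-(2 * K * s)) * (-(2 * K * 1)))) s := hd.mul h5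
      rw [h8.deriv]
      have h6 := Real.exp_pos (-(2 * K * s))
      nlinarith
  have h7 := hanti ⟨le_rfl, ht⟩ htc ht
  have hE0 : E 0 = 0 := by simp [hE, h0]
  simp only [hg, hE0, zero_mul] at h7
  have h8 : E t ≤ 0 := by
    by_contra hc
    push Not at hc
    exact absurd h7 (not_le.mpr (mul_pos hc (Real.exp_pos _)))
  intro x
  have pw : Periodic3 (fun x => u t x - v t x) := by
    intro i x
    show u t _ - v t _ = _
    rw [hu.periodic_u t ht1 i x, hv.periodic_u t ht2 i x]
  have h9 := eq_zero_of_integral (f := fun x => u t x - v t x) ((cu t htc).sub (cv t htc))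
    pw h8 x
  exact sub_eq_zero.mp h9

end Pool.Agent.Work.MP_b0497c_an.Forced
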