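import Pool.Agent.Work.MP_b0497c_an.Forced.Asm.Defs
import Pool.Agent.Work.MP_b0497c_an.Bd.B21

set_option autoImplicit false

/-!
# C13: smallness of the scaled force
-/

open scoped ContDiff Matrix
open Set Filter Topology

namespace Pool.Agent.Work.MP_b0497c_an.Forced

namespace C13

variable {f : ℝ → E3 → E3}

theorem shift (v : E3) (hv : ∀ t y, f t (y + v) = f t y) (n : ℕ) (t : ℝ) (x : E3) :
    iteratedFDeriv ℝ n (fun z : ℝ × E3 => f z.1 z.2) (t, x + v)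
      = iteratedFDeriv ℝ n (fun z : ℝ × E3 => f z.1 z.2) (t, x) := by
  have h := iteratedFDeriv_comp_add_right (𝕜 := ℝ) (f := fun z : ℝ × E3 => f z.1 z.2) n
    ((0, v) : ℝ × E3) (t, x)
  have h2 : (fun z : ℝ × E3 => (fun z : ℝ × E3 => f z.1 z.2) (z + (0, v)))
      = (fun z : ℝ × E3 => f z.1 z.2) := by
    funext z
    simp only [Prod.fst_add, Prod.snd_add, add_zero]
    exact hv _ _
  rw [h2] at h
  rw [h]
  simp

theorem bound (hf : ContDiff ℝ ∞ (fun z : ℝ × E3 => f z.1 z.2)) (hper : ∀ t, Periodic3 (f t))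
    (T1 : ℝ) (hT : ∀ t, t ∉ Icc (0 : ℝ) T1 → ∀ x, f t x = 0) (n : ℕ) :
    ∃ C : ℝ, 0 ≤ C ∧ ∀ z : ℝ × E3,
      ‖iteratedFDeriv ℝ n (fun z : ℝ × E3 => f z.1 z.2) z‖ ≤ C := by
  have hcont : Continuous (iteratedFDeriv ℝ n (fun z : ℝ × E3 => f z.1 z.2)) :=
    hf.continuous_iteratedFDeriv (by exact_mod_cast le_top)
  obtain ⟨C, hC0, hC⟩ := exists_bound (α := 0) (β := T1)
    (G := fun t x => iteratedFDeriv ℝ n (fun z : ℝ × E3 => f z.1 z.2) (t, x))
    (by exact hcont.continuousOn)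
    (fun t _ i x => shift _ (fun s y => hper s i y) n t x)
  refine ⟨C, hC0, ?_⟩
  rintro ⟨t, x⟩
  by_cases ht : t ∈ Icc (0 : ℝ) T1
  · exact hC t ht x
  · have hts : tsupport (fun z : ℝ × E3 => f z.1 z.2) ⊆ Icc (0 : ℝ) T1 ×ˢ (univ : Set E3) := by
      apply closure_minimal _ (isClosed_Icc.prod isClosed_univ)
      rintro ⟨s, y⟩ hs
      refine ⟨?_, mem_univ _⟩
      by_contra hs'
      exact hs (hT s hs' y)
    have h0 : iteratedFDeriv ℝ n (fun z : ℝ × E3 => f z.1 z.2) (t, x) = 0 := by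
      by_contra hne
      have := hts (support_iteratedFDeriv_subset n hne)
      exact ht this.1
    rw [h0, norm_zero]
    exact hC0

/-- The linear map `(t, x) ↦ (l t, x)`. -/
noncomputable def A (l : ℝ) : ℝ × E3 →L[ℝ] ℝ × E3 :=
  (l • ContinuousLinearMap.fst ℝ ℝ E3).prod (ContinuousLinearMap.snd ℝ ℝ E3)

theorem A_apply (l : ℝ) (z : ℝ × E3) : A l z = (l * z.1, z.2) := by
  simp [A]

theorem A_norm (l : ℝ) (h0 : 0 < l) (h1 : l ≤ 1) : ‖A l‖ ≤ 1 := by
  refine ContinuousLinearMap.opNorm_le_bound _ zero_le_one (fun z => ?_)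
  rw [A_apply, one_mul, Prod.norm_def, Prod.norm_def]
  apply max_le_max _ le_rfl
  simp only
  rw [norm_mul, Real.norm_of_nonneg h0.le]
  exact mul_le_of_le_one_left (norm_nonneg _) h1

theorem scaled (hf : ContDiff ℝ ∞ (fun z : ℝ × E3 => f z.1 z.2)) (l : ℝ) (h0 : 0 < l)
    (h1 : l ≤ 1) (n : ℕ) (C : ℝ)
    (hC : ∀ z : ℝ × E3, ‖iteratedFDeriv ℝ n (fun z : ℝ × E3 => f z.1 z.2) z‖ ≤ C)
    (z : ℝ × E3) :
    ‖iteratedFDeriv ℝ n (fun z : ℝ × E3 => l ^ 2 • f (l * z.1) z.2) z‖ ≤ l ^ 2 * C := by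
  have hfn : ContDiff ℝ n (fun z : ℝ × E3 => f z.1 z.2) :=
    hf.of_le (by exact_mod_cast le_top)
  have hcomp : (fun z : ℝ × E3 => l ^ 2 • f (l * z.1) z.2)
      = l ^ 2 • ((fun z : ℝ × E3 => f z.1 z.2) ∘ A l) := by
    funext z
    simp [A_apply]
  have hsm : ContDiff ℝ n ((fun z : ℝ × E3 => f z.1 z.2) ∘ A l) :=
    hfn.comp (A l).contDiff
  rw [hcomp, iteratedFDeriv_const_smul_apply (hsm.contDiffAt)]
  rw [norm_smul, Real.norm_of_nonneg (by positivity)]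
  apply mul_le_mul_of_nonneg_left _ (by positivity)
  rw [(A l).iteratedFDeriv_comp_right hfn z le_rfl]
  refine (ContinuousMultilinearMap.norm_compContinuousLinearMap_le _ _).trans ?_
  have hprod : ∏ _i : Fin n, ‖A l‖ ≤ 1 := by
    simp only [Finset.prod_const]
    exact pow_le_one₀ (norm_nonneg _) (A_norm l h0 h1)
  calc _ ≤ ‖iteratedFDeriv ℝ n (fun z : ℝ × E3 => f z.1 z.2) (A l z)‖ * 1 :=
        mul_le_mul_of_nonneg_left hprod (norm_nonneg _)
    _ ≤ C := by rw [mul_one]; exact hC _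

end C13

theorem prfC13 : claimC13 := by
  intro f hf hper hT m ε hε
  obtain ⟨T1, hT1⟩ := hT
  choose C hC0 hC using fun n => C13.bound hf hper T1 hT1 n
  let S : ℝ := ∑ n ∈ Finset.range (m + 1), C n
  have hS0 : 0 ≤ S := Finset.sum_nonneg (fun n _ => hC0 n)
  have hCS : ∀ n ≤ m, C n ≤ S := fun n hn =>
    Finset.single_le_sum (f := C) (fun n _ => hC0 n) (Finset.mem_range.2 (Nat.lt_succ_of_le hn))
  refine ⟨min 1 (ε / (S + 1)), lt_min one_pos (by positivity), min_le_left _ _, ?_⟩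
  intro n hn z
  set l : ℝ := min 1 (ε / (S + 1)) with hl
  have hl0 : 0 < l := lt_min one_pos (by positivity)
  have hl1 : l ≤ 1 := min_le_left _ _
  have hl2 : l ≤ ε / (S + 1) := min_le_right _ _
  refine (C13.scaled hf l hl0 hl1 n (C n) (hC n) z).trans ?_
  have h1 : l ^ 2 ≤ l := by nlinarith
  have h2 : l * (S + 1) ≤ ε := by
    rwa [le_div_iff₀ (by positivity)] at hl2
  have h3 : C n ≤ S := hCS n hn
  calc l ^ 2 * C n ≤ l * C n := mul_le_mul_of_nonneg_right h1 (hC0 n)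
    _ ≤ l * (S + 1) := mul_le_mul_of_nonneg_left (by linarith) hl0.le
    _ ≤ ε := h2

end Pool.Agent.Work.MP_b0497c_an.Forced
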