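import Pool.Agent.Work.MP_b0497c_an.Forced.Asm.Statement
import Pool.Agent.Work.MP_b0497c_an.Bd.B16
import Pool.Agent.Work.MP_b0497c_an.Bd.B23
import Pool.Agent.Work.MP_b0497c_an.Forced.Asm.C10
import Pool.Agent.Work.MP_b0497c_an.Forced.Asm.C11
import Pool.Agent.Work.MP_b0497c_an.Forced.Asm.C13

set_option autoImplicit false

/-!
# Assembly: everything except the ODE half and the WKB module
-/

namespace Pool.Agent.Work.MP_b0497c_an.Forced

/-- The main theorem, from the WKB module and the existence of a cascade. -/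
theorem asm_main (hW : W.claimWKB) (hC : Nonempty Casc) (m : ℕ) (ε : ℝ) (hε : 0 < ε) :
    MainConclusion m ε :=
  main_of_claims prfC1 prfC2 (prfC6 prfC5) prfC7 (prfC8 (prfC4 prfC3) prfC5)
    (prfC9 prfC3 prfC5) prfC10 prfC11 prfC12 prfC13 prfC14 hW hC m ε hε

end Pool.Agent.Work.MP_b0497c_an.Forced
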