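import Pool.Agent.Work.MP_b0497c_an.Forced.Casc
import Pool.Agent.Work.MP_b0497c_an.Defs

set_option autoImplicit false

/-!
# Assembly: definitions and claims (section 4 of PROOF.md)
-/

open scoped ContDiff Matrix
open Set Filter Topology

namespace Pool.Agent.Work.MP_b0497c_an.Forced

/-- `ℝ³` with the sup norm. -/
abbrev V3 : Type := W.V3

/-- A sequence of packets for a cascade, with errors small in every `C^m`. -/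
structure Pk (c : Casc) where
  w : ℕ → ℝ → V3 → V3
  q : ℕ → ℝ → V3 → ℝ
  g : ℕ → ℝ → V3 → V3
  eta : ℕ → ℝ → ℝ
  w_smooth : ∀ k, ContDiff ℝ ∞ (fun z : ℝ × V3 => w k z.1 z.2)
  q_smooth : ∀ k, ContDiff ℝ ∞ (fun z : ℝ × V3 => q k z.1 z.2)
  g_smooth : ∀ k, ContDiff ℝ ∞ (fun z : ℝ × V3 => g k z.1 z.2)
  zero : ∀ k t x, t ≤ c.s k → w k t x = 0 ∧ q k t x = 0 ∧ g k t x = 0
  supp : ∀ k, ∀ t ∈ Icc (c.s k) (c.e k + c.del k), ∀ x, c.R k < ‖x‖ →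
    w k t x = 0 ∧ q k t x = 0 ∧ g k t x = 0
  g_end : ∀ k t x, c.e k + c.del k ≤ t → g k t x = 0
  div_free : ∀ k t x, ∑ j, fderiv ℝ (fun y => w k t y j) x (Pi.single j 1) = 0
  euler : ∀ k, ∀ t ≤ c.e k, ∀ x j,
    deriv (fun τ => w k τ x j) t
      + ∑ i, (c.M k t *ᵥ x) i * fderiv ℝ (fun y => w k t y j) x (Pi.single i 1)
      + (c.M k t *ᵥ w k t x) j
      + ∑ i, w k t x i * fderiv ℝ (fun y => w k t y j) x (Pi.single i 1)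
      + fderiv ℝ (fun y => q k t y) x (Pi.single j 1) = g k t x j
  eta_mem : ∀ k t, 0 ≤ eta k t ∧ eta k t ≤ 1
  eta_one : ∀ k t, c.s k + c.del k ≤ t → eta k t = 1
  inner : ∀ k, ∀ t ∈ Ico (c.s k) c.Ts, ∀ x : V3, ‖x‖ ≤ c.R (k + 1) →
    w k t x = (eta k t * (c.K k t ⬝ᵥ x)) • c.w k t
  small : ∀ m : ℕ, ∀ᶠ k in atTop, ∀ z : ℝ × V3,
    ‖iteratedFDeriv ℝ m (fun z : ℝ × V3 => g k z.1 z.2) z‖ ≤ (1 / 2) ^ k

/-- The large scale flow: linear near `0` for `1/2 ≤ t`. -/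
structure Base (c : Casc) (w0 : ℝ → V3 → V3) : Prop where
  smooth : ContDiff ℝ ∞ (fun z : ℝ × V3 => w0 z.1 z.2)
  zero : ∀ t ≤ 0, ∀ x, w0 t x = 0
  supp : ∀ t x, 1 ≤ ‖x‖ → w0 t x = 0
  div_free : ∀ t x, ∑ j, fderiv ℝ (fun y => w0 t y j) x (Pi.single j 1) = 0
  lin : ∀ t, 1 / 2 ≤ t → ∀ x : V3, ‖x‖ ≤ 1 / 4 → w0 t x = c.M 0 t *ᵥ x

/-- The Euler expression without pressure. -/
noncomputable def eu (u : ℝ → V3 → V3) (t : ℝ) (x : V3) (j : Fin 3) : ℝ :=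
  deriv (fun τ => u τ x j) t + ∑ i, u t x i * fderiv ℝ (fun y => u t y j) x (Pi.single i 1)

/-- Partial sums of the velocity. -/
noncomputable def Un {c : Casc} (P : Pk c) (w0 : ℝ → V3 → V3) (n : ℕ) (t : ℝ) (x : V3) : V3 :=
  w0 t x + ∑ k ∈ Finset.range n, P.w k t x

/-- Partial sums of the pressure. -/
noncomputable def Qn {c : Casc} (P : Pk c) (n : ℕ) (t : ℝ) (x : V3) : ℝ :=
  ∑ k ∈ Finset.range n, P.q k t x

/-- The velocity. -/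
noncomputable def Ui {c : Casc} (P : Pk c) (w0 : ℝ → V3 → V3) (t : ℝ) (x : V3) : V3 :=
  w0 t x + ∑' k, P.w k t x

/-- The pressure. -/
noncomputable def Qi {c : Casc} (P : Pk c) (t : ℝ) (x : V3) : ℝ := ∑' k, P.q k t x

/-- The force; `z` is a cut-off in time for the large scale part. -/
noncomputable def Fi {c : Casc} (P : Pk c) (w0 : ℝ → V3 → V3) (z : ℝ → ℝ) (t : ℝ) (x : V3) : V3 :=
  (fun j => z t * eu w0 t x j) + ∑' k, P.g k t x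

/-- Vorticity. -/
noncomputable def curlV (u : V3 → V3) (x : V3) : V3 :=
  ![fderiv ℝ (fun y => u y 2) x (Pi.single 1 1) - fderiv ℝ (fun y => u y 1) x (Pi.single 2 1),
    fderiv ℝ (fun y => u y 0) x (Pi.single 2 1) - fderiv ℝ (fun y => u y 2) x (Pi.single 0 1),
    fderiv ℝ (fun y => u y 1) x (Pi.single 0 1) - fderiv ℝ (fun y => u y 0) x (Pi.single 1 1)]

/-- Solution on the whole space, compactly supported smooth force, blow-up at time `T`. -/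
structure R3Sol (T : ℝ) (f u : ℝ → V3 → V3) (p : ℝ → V3 → ℝ) : Prop where
  f_smooth : ContDiff ℝ ∞ (fun z : ℝ × V3 => f z.1 z.2)
  f_time : ∀ t, t ∉ Icc (0 : ℝ) 4 → ∀ x, f t x = 0
  f_supp : ∀ t x, 1 < ‖x‖ → f t x = 0
  u_smooth : ContDiffOn ℝ ∞ (fun z : ℝ × V3 => u z.1 z.2) (Iio T ×ˢ univ)
  p_smooth : ContDiffOn ℝ ∞ (fun z : ℝ × V3 => p z.1 z.2) (Iio T ×ˢ univ)
  u_supp : ∀ t < T, ∀ x, 1 < ‖x‖ → u t x = 0
  p_supp : ∀ t < T, ∀ x, 1 < ‖x‖ → p t x = 0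
  u_zero : ∀ t ≤ 0, ∀ x, u t x = 0
  div_free : ∀ t < T, ∀ x, ∑ j, fderiv ℝ (fun y => u t y j) x (Pi.single j 1) = 0
  euler : ∀ t < T, ∀ x j, eu u t x j + fderiv ℝ (p t) x (Pi.single j 1) = f t x j
  blow : ∀ B : ℝ, ∃ t0 < T, ∀ t ∈ Ioo t0 T, ∃ j, B ≤ |curlV (u t) 0 j|

/-- Solution on the torus, smooth periodic force, blow-up at time `T`. -/
structure TorusSol (T : ℝ) (f u : ℝ → E3 → E3) (p : ℝ → E3 → ℝ) : Prop where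
  f_smooth : ContDiff ℝ ∞ (fun z : ℝ × E3 => f z.1 z.2)
  f_per : ∀ t, Periodic3 (f t)
  f_time : ∃ T1 : ℝ, ∀ t, t ∉ Icc (0 : ℝ) T1 → ∀ x, f t x = 0
  u_smooth : ContDiffOn ℝ ∞ (fun z : ℝ × E3 => u z.1 z.2) (Iio T ×ˢ univ)
  p_smooth : ContDiffOn ℝ ∞ (fun z : ℝ × E3 => p z.1 z.2) (Iio T ×ˢ univ)
  u_per : ∀ t < T, Periodic3 (u t)
  p_per : ∀ t < T, Periodic3 (p t)
  u_zero : ∀ t ≤ 0, ∀ x, u t x = 0
  euler : ∀ t < T, ∀ x, deriv (fun s => u s x) t + fderiv ℝ (u t) x (u t x)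
    = - gradient (p t) x + f t x
  div_free : ∀ t < T, ∀ x, LinearMap.trace ℝ E3 (fderiv ℝ (u t) x) = 0
  blow : Tendsto (fun t => ‖curl (u t) 0‖) (𝓝[<] T) atTop

/-- Classical (`C¹`) periodic solution of the forced Euler equations on `[0, T)`. -/
structure IsForcedSolution (T : ℝ) (f u : ℝ → E3 → E3) (p : ℝ → E3 → ℝ) : Prop where
  periodic_u : ∀ t ∈ Ico 0 T, Periodic3 (u t)
  periodic_p : ∀ t ∈ Ico 0 T, Periodic3 (p t)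
  contDiff_u : ContDiffOn ℝ 1 (fun z : ℝ × E3 => u z.1 z.2) (Ico 0 T ×ˢ univ)
  contDiff_p : ContDiffOn ℝ 1 (fun z : ℝ × E3 => p z.1 z.2) (Ico 0 T ×ˢ univ)
  momentum : ∀ t ∈ Ico 0 T, ∀ x, derivWithin (fun s => u s x) (Ico 0 T) t
    + fderiv ℝ (u t) x (u t x) = - gradient (p t) x + f t x
  div_free : ∀ t ∈ Ico 0 T, ∀ x, LinearMap.trace ℝ E3 (fderiv ℝ (u t) x) = 0

/-! ### Claims -/

/-- C1: diagonal choice of the number of correctors. -/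
def claimC1 : Prop := W.claimWKB → ∀ c : Casc, Nonempty (Pk c)

/-- C2: the large scale flow. -/
def claimC2 : Prop := ∀ c : Casc, ∃ w0 : ℝ → V3 → V3, Base c w0

/-- C3: the partial sums are exactly linear on the small balls. -/
def claimC3 : Prop := ∀ (c : Casc) (P : Pk c) (w0 : ℝ → V3 → V3), Base c w0 → ∀ n : ℕ,
  ∀ t ∈ Ico (c.s n) c.Ts, ∀ x : V3, ‖x‖ ≤ c.R n → Un P w0 n t x = c.M n t *ᵥ x

/-- C4: Euler equation for the partial sums. -/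
def claimC4 : Prop := ∀ (c : Casc) (P : Pk c) (w0 : ℝ → V3 → V3), Base c w0 → ∀ n : ℕ,
  ∀ t < c.Ts, ∀ x j, eu (Un P w0 n) t x j + fderiv ℝ (Qn P n t) x (Pi.single j 1)
    = eu w0 t x j + ∑ k ∈ Finset.range n, P.g k t x j

/-- C5: before time `s n` the limit is the partial sum number `n`. -/
def claimC5 : Prop := ∀ (c : Casc) (P : Pk c) (w0 : ℝ → V3 → V3) (n : ℕ), ∀ t ≤ c.s n, ∀ x : V3,
  Ui P w0 t x = Un P w0 n t x ∧ Qi P t x = Qn P n t x ∧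
    ∑' k, P.g k t x = ∑ k ∈ Finset.range n, P.g k t x

/-- C6: smoothness of the velocity and of the pressure, supports, divergence. -/
def claimC6 : Prop := ∀ (c : Casc) (P : Pk c) (w0 : ℝ → V3 → V3), Base c w0 →
  ContDiffOn ℝ ∞ (fun z : ℝ × V3 => Ui P w0 z.1 z.2) (Iio c.Ts ×ˢ univ) ∧
  ContDiffOn ℝ ∞ (fun z : ℝ × V3 => Qi P z.1 z.2) (Iio c.Ts ×ˢ univ) ∧
  (∀ t < c.Ts, ∀ x, 1 < ‖x‖ → Ui P w0 t x = 0 ∧ Qi P t x = 0) ∧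
  (∀ t ≤ 0, ∀ x, Ui P w0 t x = 0) ∧
  (∀ t < c.Ts, ∀ x, ∑ j, fderiv ℝ (fun y => Ui P w0 t y j) x (Pi.single j 1) = 0)

/-- C7: the force. -/
def claimC7 : Prop := ∀ (c : Casc) (P : Pk c) (w0 : ℝ → V3 → V3), Base c w0 →
  ∀ z : ℝ → ℝ, ContDiff ℝ ∞ z → (∀ t, 4 ≤ t → z t = 0) →
  ContDiff ℝ ∞ (fun y : ℝ × V3 => Fi P w0 z y.1 y.2) ∧
  (∀ t, t ∉ Icc (0 : ℝ) 4 → ∀ x, Fi P w0 z t x = 0) ∧
  (∀ t x, 1 < ‖x‖ → Fi P w0 z t x = 0)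

/-- C8: the Euler equation of the limit. -/
def claimC8 : Prop := ∀ (c : Casc) (P : Pk c) (w0 : ℝ → V3 → V3), Base c w0 →
  ∀ t < c.Ts, ∀ x j, eu (Ui P w0) t x j + fderiv ℝ (Qi P t) x (Pi.single j 1)
    = eu w0 t x j + (∑' k, P.g k t x) j

/-- C9: blow-up of the vorticity. -/
def claimC9 : Prop := ∀ (c : Casc) (P : Pk c) (w0 : ℝ → V3 → V3), Base c w0 →
  ∀ B : ℝ, ∃ t0 < c.Ts, ∀ t ∈ Ioo t0 c.Ts, ∃ j, B ≤ |curlV (Ui P w0 t) 0 j|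

/-- C10: from the whole space to the torus. -/
def claimC10 : Prop := ∀ (T : ℝ) (f u : ℝ → V3 → V3) (p : ℝ → V3 → ℝ), 0 < T → R3Sol T f u p →
  ∃ (f' u' : ℝ → E3 → E3) (p' : ℝ → E3 → ℝ), TorusSol T f' u' p'

/-- C11: uniqueness of classical solutions. -/
def claimC11 : Prop := ∀ (T₁ T₂ : ℝ) (f u v : ℝ → E3 → E3) (p q : ℝ → E3 → ℝ),
  IsForcedSolution T₁ f u p → IsForcedSolution T₂ f v q → (∀ x, u 0 x = v 0 x) →
  ∀ t ∈ Ico 0 (min T₁ T₂), ∀ x, u t x = v t x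

/-- C12: scaling. -/
def claimC12 : Prop := ∀ (T : ℝ) (f u : ℝ → E3 → E3) (p : ℝ → E3 → ℝ), TorusSol T f u p →
  ∀ l : ℝ, 0 < l → TorusSol (T / l) (fun t x => l ^ 2 • f (l * t) x) (fun t x => l • u (l * t) x)
    (fun t x => l ^ 2 * p (l * t) x)

/-- C13: smallness of the scaled force. -/
def claimC13 : Prop := ∀ f : ℝ → E3 → E3, ContDiff ℝ ∞ (fun z : ℝ × E3 => f z.1 z.2) →
  (∀ t, Periodic3 (f t)) → (∃ T1 : ℝ, ∀ t, t ∉ Icc (0 : ℝ) T1 → ∀ x, f t x = 0) →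
  ∀ (m : ℕ) (ε : ℝ), 0 < ε → ∃ l : ℝ, 0 < l ∧ l ≤ 1 ∧ ∀ n ≤ m, ∀ z : ℝ × E3,
    ‖iteratedFDeriv ℝ n (fun z : ℝ × E3 => l ^ 2 • f (l * z.1) z.2) z‖ ≤ ε

/-- C14: the maximal time: no classical solution survives the blow-up time. -/
def claimC14 : Prop := claimC11 → ∀ (T : ℝ) (f u : ℝ → E3 → E3) (p : ℝ → E3 → ℝ), 0 < T →
  TorusSol T f u p → IsForcedSolution T f u p ∧
  ∀ (T' : ℝ) (v : ℝ → E3 → E3) (q : ℝ → E3 → ℝ), IsForcedSolution T' f v q →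
    (∀ x, v 0 x = 0) → T' ≤ T ∧ ∀ t ∈ Ico 0 T', ∀ x, v t x = u t x

end Pool.Agent.Work.MP_b0497c_an.Forced
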